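import Pool.Agent.Y105.HG.Stm

/-!
# Project HG: the coefficient functionals of the dual unit ball are norming
-/

set_option autoImplicit false

open MeasureTheory Filter Topology
open scoped ENNReal

namespace Pool.Agent.Y328.HG

open Pool.Agent.Y105.HG

instance : IsFiniteMeasure leb := by
  unfold leb; infer_instance

theorem hs_meas (i : HIx) : Measurable (hs i) := by
  cases i with
  | none => exact measurable_const
  | some i =>
    unfold hs
    exact (measurable_const.indicator measurableSet_Ico).sub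
      (measurable_const.indicator measurableSet_Ico)

theorem hs_le (i : HIx) (x : ℝ) : |hs i x| ≤ 1 := by
  cases i with
  | none => simp [hs]
  | some i =>
    unfold hs
    simp only [Set.indicator_apply]
    split_ifs with h1 h2 h2
    · exfalso
      exact absurd h1.2 (not_lt.mpr h2.1)
    · norm_num
    · norm_num
    · norm_num

variable {𝕜 : Type} [RCLike 𝕜]

theorem hs_norm (i : HIx) (x : ℝ) : ‖((hs i x : ℝ) : 𝕜)‖ ≤ 1 := by
  rw [RCLike.norm_ofReal]; exact hs_le i x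

/-- Haar polynomials. -/
noncomputable def hp (F : Finset HIx) (a : HIx → 𝕜) (x : ℝ) : 𝕜 :=
  ∑ i ∈ F, a i * ((hs i x : ℝ) : 𝕜)

theorem hp_meas (F : Finset HIx) (a : HIx → 𝕜) : Measurable (hp F a) := by
  unfold hp
  refine Finset.measurable_sum _ fun i _ => ?_
  exact measurable_const.mul ((RCLike.measurable_ofReal (𝕜 := 𝕜)).comp (hs_meas i))

theorem hp_le (F : Finset HIx) (a : HIx → 𝕜) (x : ℝ) : ‖hp F a x‖ ≤ ∑ i ∈ F, ‖a i‖ := by
  unfold hp
  refine (norm_sum_le _ _).trans (Finset.sum_le_sum fun i _ => ?_)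
  rw [norm_mul]
  calc ‖a i‖ * ‖((hs i x : ℝ) : 𝕜)‖ ≤ ‖a i‖ * 1 :=
        mul_le_mul_of_nonneg_left (hs_norm i x) (norm_nonneg _)
    _ = ‖a i‖ := mul_one _

theorem hp_memLp (F : Finset HIx) (a : HIx → 𝕜) (r : ℝ≥0∞) : MemLp (hp F a) r leb :=
  MemLp.of_bound (hp_meas F a).aestronglyMeasurable (∑ i ∈ F, ‖a i‖)
    (Eventually.of_forall (hp_le F a))

theorem pair (F : Finset HIx) (a : HIx → 𝕜) (u : ℝ → 𝕜) (hu : Integrable u leb) :
    ∫ x, hp F a x * u x ∂leb = ∑ i ∈ F, a i * cf i u := by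
  have hi : ∀ i : HIx, Integrable (fun x => ((hs i x : ℝ) : 𝕜) * u x) leb := fun i =>
    hu.bdd_mul (c := 1) ((RCLike.measurable_ofReal (𝕜 := 𝕜)).comp (hs_meas i)).aestronglyMeasurable
      (Eventually.of_forall (hs_norm i))
  have h1 : (fun x => hp F a x * u x) = fun x => ∑ i ∈ F, a i * (((hs i x : ℝ) : 𝕜) * u x) := by
    funext x
    unfold hp
    rw [Finset.sum_mul]
    exact Finset.sum_congr rfl fun i _ => mul_assoc _ _ _
  rw [h1, integral_finsetSum]
  · refine Finset.sum_congr rfl fun i _ => ?_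
    rw [integral_const_mul]
    rfl
  · intro i _
    exact (hi i).const_mul _

theorem holder {p q : ℝ} (hpq : p.HolderConjugate q) (u v : ℝ → 𝕜)
    (hu : MemLp u (ENNReal.ofReal p) leb) (hv : MemLp v (ENNReal.ofReal q) leb) :
    ‖∫ x, u x * v x ∂leb‖ ≤ (∫ x, ‖u x‖ ^ p ∂leb) ^ (1 / p) * (∫ x, ‖v x‖ ^ q ∂leb) ^ (1 / q) := by
  refine (norm_integral_le_integral_norm _).trans ?_
  simp only [norm_mul]
  exact integral_mul_norm_le_Lp_mul_Lq hpq hu hv

/-- One half of the unconditionality estimate: the multiplied polynomial lives in `L_r`, `r ≤ 2`. -/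
theorem half {r s : ℝ} (hrs : r.HolderConjugate s) {C : ℝ} (hC : 0 < C)
    (hU : ∀ (F : Finset HIx) (c ε : HIx → 𝕜), (∀ i, ‖ε i‖ ≤ 1) →
      ∫ x, ‖∑ i ∈ F, ε i * c i * ((hs i x : ℝ) : 𝕜)‖ ^ r ∂leb ≤
        C * ∫ x, ‖∑ i ∈ F, c i * ((hs i x : ℝ) : 𝕜)‖ ^ r ∂leb)
    (hE : ∀ (N : ℕ) (f : ℝ → 𝕜), MemLp f (ENNReal.ofReal r) leb →
      ∫ x, ‖EN N f x‖ ^ r ∂leb ≤ ∫ x, ‖f x‖ ^ r ∂leb)
    (N : ℕ) (y g : ℝ → 𝕜) (hy : MemLp y (ENNReal.ofReal r) leb)
    (hg : MemLp g (ENNReal.ofReal s) leb) (hg1 : Integrable g leb) :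
    ∑ i ∈ FN N, (2 : ℝ) ^ lev i * (‖cf i y‖ * ‖cf i g‖) ≤
      C ^ (1 / r) * ((∫ x, ‖y x‖ ^ r ∂leb) ^ (1 / r) * (∫ x, ‖g x‖ ^ s ∂leb) ^ (1 / s)) := by
  have hex : ∀ i : HIx, ∃ c : 𝕜, ‖c‖ = 1 ∧ ((‖cf i y * cf i g‖ : ℝ) : 𝕜) = c * (cf i y * cf i g) :=
    fun i => RCLike.exists_norm_eq_mul_self _
  choose ε hε1 hε2 using hex
  set H := hp (FN N) (fun i => ε i * ((2 : 𝕜) ^ lev i * cf i y)) with hH
  have h1 := pair (FN N) (fun i => ε i * ((2 : 𝕜) ^ lev i * cf i y)) g hg1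
  have h2 : ∑ i ∈ FN N, ε i * ((2 : 𝕜) ^ lev i * cf i y) * cf i g =
      ((∑ i ∈ FN N, (2 : ℝ) ^ lev i * (‖cf i y‖ * ‖cf i g‖) : ℝ) : 𝕜) := by
    push_cast
    refine Finset.sum_congr rfl fun i _ => ?_
    have := hε2 i
    rw [norm_mul] at this
    push_cast at this
    rw [this]; ring
  have h3 := holder hrs H g (hp_memLp _ _ _) hg
  rw [hH, h1, h2, RCLike.norm_ofReal] at h3
  have h4 := (le_abs_self _).trans h3
  refine h4.trans ?_
  rw [← mul_assoc]
  refine mul_le_mul_of_nonneg_right ?_ (Real.rpow_nonneg (integral_nonneg fun x => by positivity) _)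
  have hr : 0 < r := hrs.pos
  rw [← Real.mul_rpow hC.le (integral_nonneg fun x => by positivity)]
  refine Real.rpow_le_rpow (integral_nonneg fun x => by positivity) ?_ (by positivity)
  refine (hU (FN N) (fun i => (2 : 𝕜) ^ lev i * cf i y) ε (fun i => (hε1 i).le)).trans ?_
  exact mul_le_mul_of_nonneg_left (hE N y hy) hC.le

theorem en_eq (N : ℕ) (f : ℝ → 𝕜) : EN N f = hp (FN N) (fun i => (2 : 𝕜) ^ lev i * cf i f) := rfl

theorem h3 (hU : S_U) (hE : S_EXP) (_hB : S_BIO) : S_H3 := by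
  intro 𝕜 _ p hp1
  set q : ℝ := p / (p - 1) with hq
  have hpq : p.HolderConjugate q := Real.HolderConjugate.conjExponent hp1
  have hqp : q.HolderConjugate p := hpq.symm
  obtain ⟨hE1, hE2, -⟩ := hE 𝕜
  -- the claim
  obtain ⟨C', hC', claim⟩ : ∃ C' : ℝ, 0 < C' ∧ ∀ (N : ℕ) (y g : ℝ → 𝕜),
      MemLp y (ENNReal.ofReal p) leb → MemLp g (ENNReal.ofReal q) leb →
      ∑ i ∈ FN N, (2 : ℝ) ^ lev i * (‖cf i y‖ * ‖cf i g‖) ≤
      C' * ((∫ x, ‖y x‖ ^ p ∂leb) ^ (1 / p) * (∫ x, ‖g x‖ ^ q ∂leb) ^ (1 / q)) := by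
    have hint : ∀ {r : ℝ} (_ : 1 < r) (u : ℝ → 𝕜), MemLp u (ENNReal.ofReal r) leb →
        Integrable u leb := by
      intro r hr u hu
      exact hu.integrable (by rw [← ENNReal.ofReal_one]; exact ENNReal.ofReal_le_ofReal hr.le)
    rcases le_or_gt p 2 with h2 | h2
    · obtain ⟨C, hC, hCU⟩ := hU 𝕜 p hp1 h2
      refine ⟨C ^ (1 / p), Real.rpow_pos_of_pos hC _, fun N y g hy hg => ?_⟩
      exact half hpq hC hCU (hE1 p hp1.le) N y g hy hg (hint hqp.lt g hg)
    · have hq2 : q ≤ 2 := by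
        rw [hq, div_le_iff₀ (by linarith)]; linarith
      obtain ⟨C, hC, hCU⟩ := hU 𝕜 q hqp.lt hq2
      refine ⟨C ^ (1 / q), Real.rpow_pos_of_pos hC _, fun N y g hy hg => ?_⟩
      have := half hqp hC hCU (hE1 q hqp.lt.le) N g y hg hy (hint hp1 y hy)
      calc ∑ i ∈ FN N, (2 : ℝ) ^ lev i * (‖cf i y‖ * ‖cf i g‖)
          = ∑ i ∈ FN N, (2 : ℝ) ^ lev i * (‖cf i g‖ * ‖cf i y‖) :=
            Finset.sum_congr rfl fun i _ => by ring
        _ ≤ _ := this
        _ = _ := by ring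
  refine ⟨C', hC', fun f hf M hM => ?_⟩
  have hM0 : 0 ≤ M := by
    have := hM ∅ (fun _ => 0) (fun _ => le_rfl) (fun y _ => by
      rw [Finset.sum_empty]
      exact Real.rpow_nonneg (integral_nonneg fun x => by positivity) _)
    simpa using this
  have hp0 : 0 < p := by linarith
  have key : ∀ N : ℕ, ∫ x, ‖EN N f x‖ ^ p ∂leb ≤ (C' * M) ^ p := by
    intro N
    set G := EN N f with hG
    set A := ∫ x, ‖G x‖ ^ p ∂leb with hA
    have hA0 : 0 ≤ A := integral_nonneg fun x => by positivity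
    rcases hA0.eq_or_lt with h0 | hApos
    · rw [← h0]; positivity
    set g : ℝ → 𝕜 := fun x => ((‖G x‖ ^ (p - 2) : ℝ) : 𝕜) * star (G x) with hg
    have hGm : Measurable G := by rw [hG, en_eq]; exact hp_meas _ _
    have hgm : Measurable g := by
      refine Measurable.mul ?_ ?_
      · exact (RCLike.measurable_ofReal (𝕜 := 𝕜)).comp (hGm.norm.pow_const _)
      · exact (continuous_star.measurable).comp hGm
    have hgn : ∀ x, ‖g x‖ = ‖G x‖ ^ (p - 1) := by
      intro x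
      simp only [hg]
      rw [norm_mul, RCLike.norm_ofReal, norm_star, abs_of_nonneg (by positivity)]
      rcases eq_or_ne (G x) 0 with h | h
      · rw [h, norm_zero, mul_zero, Real.zero_rpow (by linarith)]
      · rw [← Real.rpow_add_one (norm_ne_zero_iff.mpr h)]; congr 1; ring
    have hGg : ∀ x, G x * g x = ((‖G x‖ ^ p : ℝ) : 𝕜) := by
      intro x
      simp only [hg]
      rcases eq_or_ne (G x) 0 with h | h
      · rw [h, norm_zero, zero_mul, Real.zero_rpow (by linarith)]; simp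
      · have h5 : G x * star (G x) = ((‖G x‖ ^ 2 : ℝ) : 𝕜) := by
          have := RCLike.mul_conj (G x)
          push_cast
          exact this
        calc G x * (((‖G x‖ ^ (p - 2) : ℝ) : 𝕜) * star (G x))
            = ((‖G x‖ ^ (p - 2) : ℝ) : 𝕜) * (G x * star (G x)) := by ring
          _ = ((‖G x‖ ^ (p - 2) * ‖G x‖ ^ (2:ℕ) : ℝ) : 𝕜) := by rw [h5]; push_cast; ring
          _ = _ := by
            congr 1
            rw [← Real.rpow_add_natCast (norm_ne_zero_iff.mpr h)]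
            congr 1; push_cast; ring
    have hgq : ∫ x, ‖g x‖ ^ q ∂leb = A := by
      rw [hA]
      refine integral_congr_ae (Eventually.of_forall fun x => ?_)
      show ‖g x‖ ^ q = ‖G x‖ ^ p
      rw [hgn, ← Real.rpow_mul (norm_nonneg _)]
      congr 1
      have hp1' : p - 1 ≠ 0 := by linarith
      rw [hq, mul_div_assoc', mul_comm, mul_div_assoc, div_self hp1', mul_one]
    have hgL : ∀ r : ℝ≥0∞, MemLp g r leb := fun r => by
      refine MemLp.of_bound hgm.aestronglyMeasurable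
        ((∑ i ∈ FN N, ‖(2 : 𝕜) ^ lev i * cf i f‖) ^ (p - 1)) (Eventually.of_forall fun x => ?_)
      rw [hgn]
      exact Real.rpow_le_rpow (norm_nonneg _) (hp_le _ _ x) (by linarith)
    have hpair := pair (FN N) (fun i => (2 : 𝕜) ^ lev i * cf i f) g
      (memLp_one_iff_integrable.mp (hgL 1))
    have hsumA : A ≤ ∑ i ∈ FN N, (2 : ℝ) ^ lev i * (‖cf i f‖ * ‖cf i g‖) := by
      have h6 : ((A : ℝ) : 𝕜) = ∑ i ∈ FN N, (2 : 𝕜) ^ lev i * cf i f * cf i g := by
        rw [← hpair, hA, ← integral_ofReal]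
        refine integral_congr_ae (Eventually.of_forall fun x => ?_)
        exact (hGg x).symm
      have h7 : A = ‖((A : ℝ) : 𝕜)‖ := by rw [RCLike.norm_ofReal, abs_of_nonneg hA0]
      rw [h7, h6]
      refine (norm_sum_le _ _).trans (Finset.sum_le_sum fun i _ => ?_)
      rw [norm_mul, norm_mul, norm_pow, RCLike.norm_ofNat, mul_assoc]
    have hAq : 0 < A ^ (1 / q) := Real.rpow_pos_of_pos hApos _
    set lam := 1 / (C' * A ^ (1 / q)) with hlam
    have hlam0 : 0 < lam := by positivity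
    have h8 := hM (FN N) (fun i => lam * ((2 : ℝ) ^ lev i * ‖cf i g‖)) (fun i => by positivity)
      (fun y hy => by
        have h9 := claim N y g hy (hgL _)
        rw [hgq] at h9
        calc ∑ i ∈ FN N, lam * ((2 : ℝ) ^ lev i * ‖cf i g‖) * ‖cf i y‖
            = lam * ∑ i ∈ FN N, (2 : ℝ) ^ lev i * (‖cf i y‖ * ‖cf i g‖) := by
              rw [Finset.mul_sum]
              exact Finset.sum_congr rfl fun i _ => by ring
          _ ≤ lam * (C' * ((∫ x, ‖y x‖ ^ p ∂leb) ^ (1 / p) * A ^ (1 / q))) :=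
              mul_le_mul_of_nonneg_left h9 hlam0.le
          _ = (∫ x, ‖y x‖ ^ p ∂leb) ^ (1 / p) := by
              rw [hlam]; field_simp)
    have h10 : lam * A ≤ M := by
      calc lam * A ≤ lam * ∑ i ∈ FN N, (2 : ℝ) ^ lev i * (‖cf i f‖ * ‖cf i g‖) :=
            mul_le_mul_of_nonneg_left hsumA hlam0.le
        _ = ∑ i ∈ FN N, lam * ((2 : ℝ) ^ lev i * ‖cf i g‖) * ‖cf i f‖ := by
            rw [Finset.mul_sum]
            exact Finset.sum_congr rfl fun i _ => by ring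
        _ ≤ M := h8
    have h11 : A ≤ C' * A ^ (1 / q) * M := by
      have h12 : lam * A = A / (C' * A ^ (1 / q)) := by rw [hlam]; ring
      rw [h12, div_le_iff₀ (by positivity)] at h10
      linarith
    have h13 : A = A ^ (1 / p) * A ^ (1 / q) := by
      rw [← Real.rpow_add hApos]
      have : 1 / p + 1 / q = 1 := by
        have := hpq.inv_add_inv_eq_one
        simpa [one_div] using this
      rw [this, Real.rpow_one]
    have h14 : A ^ (1 / p) ≤ C' * M := by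
      have h15 : A ^ (1 / p) * A ^ (1 / q) ≤ (C' * M) * A ^ (1 / q) := by
        rw [← h13]; linarith
      exact le_of_mul_le_mul_right h15 hAq
    calc A = (A ^ (1 / p)) ^ p := by
          rw [← Real.rpow_mul hA0, one_div, inv_mul_cancel₀ hp0.ne', Real.rpow_one]
      _ ≤ (C' * M) ^ p := Real.rpow_le_rpow (Real.rpow_nonneg hA0 _) h14 hp0.le
  have hfin := hE2 p hp1.le f ((C' * M) ^ p) hf key
  calc (∫ x, ‖f x‖ ^ p ∂leb) ^ (1 / p) ≤ ((C' * M) ^ p) ^ (1 / p) :=
        Real.rpow_le_rpow (integral_nonneg fun x => by positivity) hfin (by positivity)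
    _ = C' * M := by
        rw [← Real.rpow_mul (by positivity), one_div, mul_inv_cancel₀ hp0.ne', Real.rpow_one]

end Pool.Agent.Y328.HG
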